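import Pool.Agent.TH90.Cub.Lin

set_option autoImplicit false

open CategoryTheory AlgebraicGeometry Pool.Agent.TH90.Cub

namespace Pool.Agent.Results.MP_a9d3bd_ag.CubicHypersurfaces

variable {F : Type} [Field F]

/-- The bilinear pairings `A_{i,n}(X) × B_{i,n}(X) → ℚ`. -/
def Pairing (A B : Theory F ℚ) (i n : ℤ) (X : FSch F) : Type :=
  A.G i n X →ₗ[ℚ] B.G i n X →ₗ[ℚ] ℚ

/-- The value of a pairing. -/
def Pairing.val {A B : Theory F ℚ} {i n : ℤ} {X : FSch F} (β : Pairing A B i n X)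
    (x : A.G i n X) (y : B.G i n X) : ℚ := (show A.G i n X →ₗ[ℚ] B.G i n X →ₗ[ℚ] ℚ from β) x y

/-- The linear functionals on `A_{i,n}(X)`. -/
def Functional (A : Theory F ℚ) (i n : ℤ) (X : FSch F) : Type := A.G i n X →ₗ[ℚ] ℚ

/-- The value of a functional. -/
def Functional.val {A : Theory F ℚ} {i n : ℤ} {X : FSch F} (φ : Functional A i n X)
    (x : A.G i n X) : ℚ := (show A.G i n X →ₗ[ℚ] ℚ from φ) x

/-- A pairing is perfect if both induced maps to the dual spaces are bijective. -/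
def Pairing.Perfect {A B : Theory F ℚ} {i n : ℤ} {X : FSch F} (β : Pairing A B i n X) : Prop :=
  (∀ φ : Functional B i n X, ∃! x, ∀ y, β.val x y = φ.val y) ∧
    (∀ φ : Functional A i n X, ∃! y, ∀ x, β.val x y = φ.val x)

variable (F) in
/-- Rational motivic homology and cohomology with compact supports:
`H`: the groups `H_i^c(X, ℚ(n)) = Hom(ℤ(n)[i], M^c(X))_ℚ`;
`K`: the groups `H^i_c(X, ℚ(n)) = Hom(M^c(X), ℤ(n)[i])_ℚ`;
`pair`: the pairing by composition. -/
structure Motivic where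
  H : Theory F ℚ
  K : Theory F ℚ
  pair : ∀ i n X, Pairing H K i n X

/-- A long exact sequence `… → K^i(U) → K^i(X) → K^i(Z) → K^{i+1}(U) → …`, weight `n`. -/
structure CoSeq (A : Theory F ℚ) (Z X U : FSch F) (n : ℤ) where
  r : ∀ i, Lin A i n U A i n X
  p : ∀ i, Lin A i n X A i n Z
  b : ∀ i, Lin A i n Z A (i + 1) n U
  ex1 : ∀ i, Ex (r i) (p i)
  ex2 : ∀ i, Ex (p i) (b i)
  ex3 : ∀ i, Ex (b i) (r (i + 1))

/-- The long exact sequences for a closed `Z ⊆ X` with open complement `U`, induced by the triangle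
`M^c(Z) → M^c(X) → M^c(U) → M^c(Z)[1]`; the maps are adjoint to each other for the pairings. -/
structure Localization (T : Motivic F) (Z X U : FSch F) (n : ℤ) where
  H : Seq T.H Z X U n
  K : CoSeq T.K Z X U n
  adjp : ∀ i x y, (T.pair i n X).val ((H.p i).ap x) y = (T.pair i n Z).val x ((K.p i).ap y)
  adjr : ∀ i x y, (T.pair i n U).val ((H.r i).ap x) y = (T.pair i n X).val x ((K.r i).ap y)
  adjb : ∀ i x y, (T.pair i n Z).val ((H.b i).ap x) y = (T.pair (i + 1) n U).val x ((K.b i).ap y)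

/-- Isomorphisms of the groups of `X` with those of `Y`, with a shift of degree by `s` and of weight
by `t`, compatible with the pairings. -/
structure Shift (T : Motivic F) (X Y : FSch F) (s t : ℤ) where
  a : T.H.Iso X Y s t
  b : T.K.Iso X Y s t
  pair : ∀ i n i' n' h h' x y, (T.pair i' n' Y).val ((a i n i' n' h h').ap x)
    ((b i n i' n' h h').ap y) = (T.pair i n X).val x y

/-- The formal properties: invariance under isomorphisms, vanishing for the empty scheme,
localisation sequences, and homotopy invariance `M^c(A[T]) = M^c(A)(1)[2]`. -/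
structure Formalism (T : Motivic F) : Prop where
  iso : ∀ {X Y : Scheme.{0}} (e : X ≅ Y) (g : Y ⟶ Spec (CommRingCat.of F)), FT True F g →
    Nonempty (Shift T ⟨X, e.hom ≫ g⟩ ⟨Y, g⟩ 0 0)
  empty : ∀ (i n : ℤ) (X : FSch F), IsEmpty X.X →
    Subsingleton (T.H.G i n X) ∧ Subsingleton (T.K.G i n X)
  localization : ∀ {Z X U : Scheme.{0}} (f : X ⟶ Spec (CommRingCat.of F)) (i : Z ⟶ X)
    (j : U ⟶ X), FT True F f → IsClosedImmersion i → IsOpenImmersion j →
    Set.range i = (Set.range j)ᶜ → ∀ n, Nonempty (Localization T ⟨Z, i ≫ f⟩ ⟨X, f⟩ ⟨U, j ≫ f⟩ n)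
  homotopy : ∀ (A : Type) [CommRing A] [Algebra F A], Algebra.FiniteType F A →
    Nonempty (Shift T (SpecF A) (SpecF (Polynomial A)) 2 1)

/-- The statement for `X` and the weight `n`: the pairings of `H_i^c(X, ℚ(n))` and `H^i_c(X, ℚ(n))`
are perfect for all `i`. -/
def Motivic.BP (T : Motivic F) (n : ℤ) (X : FSch F) : Prop := ∀ i, (T.pair i n X).Perfect

section Dual

variable {A B C : Type} [AddCommGroup A] [AddCommGroup B] [AddCommGroup C] [Module ℚ A]
  [Module ℚ B] [Module ℚ C]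

theorem exact_dual (f : A →ₗ[ℚ] B) (g : B →ₗ[ℚ] C) (h : Function.Exact f g) :
    Function.Exact g.dualMap f.dualMap := by
  intro φ
  constructor
  · intro hφ
    have h1 : φ ∈ LinearMap.ker f.dualMap := hφ
    rw [LinearMap.ker_dualMap_eq_dualAnnihilator_range, ← LinearMap.exact_iff.mp h,
      ← LinearMap.range_dualMap_eq_dualAnnihilator_ker] at h1
    exact h1
  · rintro ⟨ψ, rfl⟩
    ext a
    change ψ (g (f a)) = 0
    rw [h.apply_apply_eq_zero, map_zero]

end Dual

variable (T : Motivic F)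

/-- the pairing as a bilinear map -/
def Motivic.L (i n : ℤ) (X : FSch F) : T.H.G i n X →ₗ[ℚ] Module.Dual ℚ (T.K.G i n X) :=
  T.pair i n X

def Motivic.R (i n : ℤ) (X : FSch F) : T.K.G i n X →ₗ[ℚ] Module.Dual ℚ (T.H.G i n X) :=
  LinearMap.flip (show T.H.G i n X →ₗ[ℚ] T.K.G i n X →ₗ[ℚ] ℚ from T.pair i n X)

theorem perfect_iff (i n : ℤ) (X : FSch F) : (T.pair i n X).Perfect ↔
    Function.Bijective (T.L i n X) ∧ Function.Bijective (T.R i n X) := by
  rw [Function.bijective_iff_existsUnique, Function.bijective_iff_existsUnique]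
  constructor
  · rintro ⟨h1, h2⟩
    constructor
    · intro φ
      obtain ⟨x, hx, hu⟩ := h1 φ
      refine ⟨x, LinearMap.ext hx, fun y hy => hu y fun z => ?_⟩
      exact LinearMap.congr_fun hy z
    · intro φ
      obtain ⟨x, hx, hu⟩ := h2 φ
      refine ⟨x, LinearMap.ext hx, fun y hy => hu y fun z => ?_⟩
      exact LinearMap.congr_fun hy z
  · rintro ⟨h1, h2⟩
    constructor
    · intro φ
      obtain ⟨x, hx, hu⟩ := h1 φ
      refine ⟨x, fun z => LinearMap.congr_fun hx z, fun y hy => hu y (LinearMap.ext hy)⟩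
    · intro φ
      obtain ⟨x, hx, hu⟩ := h2 φ
      refine ⟨x, fun z => LinearMap.congr_fun hx z, fun y hy => hu y (LinearMap.ext hy)⟩

section CoSeqLinear

variable {A : Theory F ℚ} {Z X U : FSch F} {n : ℤ} (S : CoSeq A Z X U n)

def CoSeq.R (i : ℤ) : A.G i n U →ₗ[ℚ] A.G i n X := S.r i

def CoSeq.P (i : ℤ) : A.G i n X →ₗ[ℚ] A.G i n Z := S.p i

def CoSeq.B (i : ℤ) : A.G i n Z →ₗ[ℚ] A.G (i + 1) n U := S.b i

theorem CoSeq.e1 (i : ℤ) : Function.Exact (S.R i) (S.P i) := S.ex1 i

theorem CoSeq.e2 (i : ℤ) : Function.Exact (S.P i) (S.B i) := S.ex2 i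

theorem CoSeq.e3 (i : ℤ) : Function.Exact (S.B i) (S.R (i + 1)) := S.ex3 i

end CoSeqLinear

variable {T} {Z X U : FSch F} {n : ℤ}

theorem Localization.lp (L : Localization T Z X U n) (i : ℤ) :
    (L.K.P i).dualMap.comp (T.L i n Z) = (T.L i n X).comp (L.H.P i) :=
  LinearMap.ext fun x => LinearMap.ext fun y => (L.adjp i x y).symm

theorem Localization.lr (L : Localization T Z X U n) (i : ℤ) :
    (L.K.R i).dualMap.comp (T.L i n X) = (T.L i n U).comp (L.H.R i) :=
  LinearMap.ext fun x => LinearMap.ext fun y => (L.adjr i x y).symm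

theorem Localization.lb (L : Localization T Z X U n) (i : ℤ) :
    (L.K.B i).dualMap.comp (T.L (i + 1) n U) = (T.L i n Z).comp (L.H.B i) :=
  LinearMap.ext fun x => LinearMap.ext fun y => (L.adjb i x y).symm

theorem Localization.rp (L : Localization T Z X U n) (i : ℤ) :
    (L.H.P i).dualMap.comp (T.R i n X) = (T.R i n Z).comp (L.K.P i) :=
  LinearMap.ext fun y => LinearMap.ext fun x => L.adjp i x y

theorem Localization.rr (L : Localization T Z X U n) (i : ℤ) :
    (L.H.R i).dualMap.comp (T.R i n U) = (T.R i n X).comp (L.K.R i) :=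
  LinearMap.ext fun y => LinearMap.ext fun x => L.adjr i x y

theorem Localization.rb (L : Localization T Z X U n) (i : ℤ) :
    (L.H.B i).dualMap.comp (T.R i n Z) = (T.R (i + 1) n U).comp (L.K.B i) :=
  LinearMap.ext fun y => LinearMap.ext fun x => L.adjb i x y

theorem Localization.closed (L : Localization T Z X U n) (hX : T.BP n X) (hU : T.BP n U) :
    T.BP n Z := by
  intro i
  have x0 := (perfect_iff T i n X).mp (hX i)
  have x1 := (perfect_iff T (i + 1) n X).mp (hX (i + 1))
  have u0 := (perfect_iff T i n U).mp (hU i)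
  have u1 := (perfect_iff T (i + 1) n U).mp (hU (i + 1))
  refine (perfect_iff T i n Z).mpr ⟨?_, ?_⟩
  · exact LinearMap.bijective_of_surjective_of_bijective_of_bijective_of_injective
      (L.H.R (i + 1)) (L.H.B i) (L.H.P i) (L.H.R i)
      (L.K.R (i + 1)).dualMap (L.K.B i).dualMap (L.K.P i).dualMap (L.K.R i).dualMap
      (T.L (i + 1) n X) (T.L (i + 1) n U) (T.L i n Z) (T.L i n X) (T.L i n U)
      (L.lr (i + 1)) (L.lb i) (L.lp i) (L.lr i) (L.H.e1 i) (L.H.e2 i) (L.H.e3 i)
      (exact_dual _ _ (L.K.e3 i)) (exact_dual _ _ (L.K.e2 i)) (exact_dual _ _ (L.K.e1 i))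
      x1.1.2 u1.1 x0.1 u0.1.1
  · exact LinearMap.bijective_of_surjective_of_bijective_of_bijective_of_injective
      (L.K.R i) (L.K.P i) (L.K.B i) (L.K.R (i + 1))
      (L.H.R i).dualMap (L.H.P i).dualMap (L.H.B i).dualMap (L.H.R (i + 1)).dualMap
      (T.R i n U) (T.R i n X) (T.R i n Z) (T.R (i + 1) n U) (T.R (i + 1) n X)
      (L.rr i) (L.rp i) (L.rb i) (L.rr (i + 1)) (L.K.e1 i) (L.K.e2 i) (L.K.e3 i)
      (exact_dual _ _ (L.H.e3 i)) (exact_dual _ _ (L.H.e2 i)) (exact_dual _ _ (L.H.e1 i))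
      u0.2.2 x0.2 u1.2 x1.2.1

theorem Localization.total (L : Localization T Z X U n) (hZ : T.BP n Z) (hU : T.BP n U) :
    T.BP n X := by
  intro i
  obtain ⟨k, rfl⟩ : ∃ k : ℤ, i = k + 1 := ⟨i - 1, by ring⟩
  have z0 := (perfect_iff T k n Z).mp (hZ k)
  have z1 := (perfect_iff T (k + 1) n Z).mp (hZ (k + 1))
  have u1 := (perfect_iff T (k + 1) n U).mp (hU (k + 1))
  have u2 := (perfect_iff T (k + 1 + 1) n U).mp (hU (k + 1 + 1))
  refine (perfect_iff T (k + 1) n X).mpr ⟨?_, ?_⟩
  · exact LinearMap.bijective_of_surjective_of_bijective_of_bijective_of_injective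
      (L.H.B (k + 1)) (L.H.P (k + 1)) (L.H.R (k + 1)) (L.H.B k)
      (L.K.B (k + 1)).dualMap (L.K.P (k + 1)).dualMap (L.K.R (k + 1)).dualMap (L.K.B k).dualMap
      (T.L (k + 1 + 1) n U) (T.L (k + 1) n Z) (T.L (k + 1) n X) (T.L (k + 1) n U) (T.L k n Z)
      (L.lb (k + 1)) (L.lp (k + 1)) (L.lr (k + 1)) (L.lb k)
      (L.H.e2 (k + 1)) (L.H.e3 (k + 1)) (L.H.e1 k)
      (exact_dual _ _ (L.K.e2 (k + 1))) (exact_dual _ _ (L.K.e1 (k + 1)))
      (exact_dual _ _ (L.K.e3 k)) u2.1.2 z1.1 u1.1 z0.1.1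
  · exact LinearMap.bijective_of_surjective_of_bijective_of_bijective_of_injective
      (L.K.B k) (L.K.R (k + 1)) (L.K.P (k + 1)) (L.K.B (k + 1))
      (L.H.B k).dualMap (L.H.R (k + 1)).dualMap (L.H.P (k + 1)).dualMap (L.H.B (k + 1)).dualMap
      (T.R k n Z) (T.R (k + 1) n U) (T.R (k + 1) n X) (T.R (k + 1) n Z) (T.R (k + 1 + 1) n U)
      (L.rb k) (L.rr (k + 1)) (L.rp (k + 1)) (L.rb (k + 1))
      (L.K.e3 k) (L.K.e1 (k + 1)) (L.K.e2 (k + 1))
      (exact_dual _ _ (L.H.e1 k)) (exact_dual _ _ (L.H.e3 (k + 1)))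
      (exact_dual _ _ (L.H.e2 (k + 1))) z0.2.2 u1.2 z1.2 u2.2.1

theorem Shift.perfect {X Y : FSch F} {s t : ℤ} (S : Shift T X Y s t) (i n i' n' : ℤ)
    (h : i' = i + s) (h' : n' = n + t) :
    (T.pair i n X).Perfect ↔ (T.pair i' n' Y).Perfect := by
  let a : T.H.G i n X ≃ₗ[ℚ] T.H.G i' n' Y := S.a i n i' n' h h'
  let b : T.K.G i n X ≃ₗ[ℚ] T.K.G i' n' Y := S.b i n i' n' h h'
  have hp : ∀ x y, (T.pair i' n' Y).val (a x) (b y) = (T.pair i n X).val x y :=
    S.pair i n i' n' h h'
  have hl : (T.L i n X) = b.toLinearMap.dualMap.comp ((T.L i' n' Y).comp a.toLinearMap) :=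
    LinearMap.ext fun x => LinearMap.ext fun y => (hp x y).symm
  have hr : (T.R i n X) = a.toLinearMap.dualMap.comp ((T.R i' n' Y).comp b.toLinearMap) :=
    LinearMap.ext fun y => LinearMap.ext fun x => (hp x y).symm
  have hb : Function.Bijective b.toLinearMap.dualMap := b.dualMap.bijective
  have ha : Function.Bijective a.toLinearMap.dualMap := a.dualMap.bijective
  rw [perfect_iff, perfect_iff, hl, hr]
  have e1 : Function.Bijective (b.toLinearMap.dualMap.comp ((T.L i' n' Y).comp a.toLinearMap)) ↔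
      Function.Bijective (T.L i' n' Y) := by
    rw [LinearMap.coe_comp, Function.Bijective.of_comp_iff' hb, LinearMap.coe_comp]
    exact Function.Bijective.of_comp_iff _ a.bijective
  have e2 : Function.Bijective (a.toLinearMap.dualMap.comp ((T.R i' n' Y).comp b.toLinearMap)) ↔
      Function.Bijective (T.R i' n' Y) := by
    rw [LinearMap.coe_comp, Function.Bijective.of_comp_iff' ha, LinearMap.coe_comp]
    exact Function.Bijective.of_comp_iff _ b.bijective
  rw [e1, e2]

theorem perfect_of_empty {i n : ℤ} {X : FSch F} (h1 : Subsingleton (T.H.G i n X))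
    (h2 : Subsingleton (T.K.G i n X)) : (T.pair i n X).Perfect := by
  rw [perfect_iff]
  have h3 : Subsingleton (Module.Dual ℚ (T.K.G i n X)) :=
    ⟨fun a b => LinearMap.ext fun x => by rw [Subsingleton.elim x 0, map_zero, map_zero]⟩
  have h4 : Subsingleton (Module.Dual ℚ (T.H.G i n X)) :=
    ⟨fun a b => LinearMap.ext fun x => by rw [Subsingleton.elim x 0, map_zero, map_zero]⟩
  exact ⟨⟨fun a b _ => Subsingleton.elim a b, fun c => ⟨0, Subsingleton.elim _ _⟩⟩,
    ⟨fun a b _ => Subsingleton.elim a b, fun c => ⟨0, Subsingleton.elim _ _⟩⟩⟩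

/-- The complement in affine space over `F` of the hypersurface `h = 0`. -/
noncomputable abbrev Complement {N : ℕ} (h : MvPolynomial (Fin N) F) : FSch F :=
  SpecF (Localization.Away h)

/-- Let `C ⊆ F` generate the ring `F`, `1 ∈ C` (if `F` is a prime field, `C = {1}` will do), and
call `x_a x_b - x_c`, `x_a + x_b - x_c` and `x_a - c`, `c ∈ C`, gates. For every weight `n` the
pairings `H_i^c(X, ℚ(n)) × H^i_c(X, ℚ(n)) → ℚ` are perfect for all separated schemes `X` of finite
type over `F` and all `i` if and only if this is so for the complements of the zero sets of finite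
products of gates in affine spaces; and they are so for all `n`, `X`, `i` if and only if they are
perfect for all `n`, `i` and the smooth hypersurfaces `g_0 t_0 + ⋯ + g_r t_r = 1` of degree at most
three in affine spaces with gates `g_i`. -/
theorem result (T : Motivic F) (hT : Formalism T) (C : Set F)
    (hC : Subring.closure C = ⊤) (h1 : (1 : F) ∈ C) :
    (∀ n : ℤ,
      (∀ (X : Scheme.{0}) (f : X ⟶ Spec (CommRingCat.of F)), FT True F f → T.BP n ⟨X, f⟩) ↔
      (∀ (N : ℕ) (h : MvPolynomial (Fin N) F), h ∈ Submonoid.closure {g | IsGate C g} →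
        T.BP n (Complement h))) ∧
    ((∀ (X : Scheme.{0}) (f : X ⟶ Spec (CommRingCat.of F)), FT True F f → ∀ n, T.BP n ⟨X, f⟩) ↔
      (∀ (N r : ℕ) (g : Fin (r + 1) → MvPolynomial (Fin N) F), (∀ i, IsGate C (g i)) →
        ∀ n, T.BP n (SpecF (Cubic g)))) ∧
    (∀ (N r : ℕ) (g : Fin (r + 1) → MvPolynomial (Fin N) F), Smooth (str F (Cubic g))) := by
  have hP : ∀ n : ℤ, IsDevissage True F (fun X f => T.BP n ⟨X, f⟩) := fun n =>
    { iso := by
        intro X Y e g hg hX i
        obtain ⟨S⟩ := hT.iso e g hg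
        exact (S.perfect i n i n (by ring) (by ring)).mp (hX i)
      empty := by
        intro X f hX i
        exact perfect_of_empty (hT.empty i n ⟨X, f⟩ hX).1 (hT.empty i n ⟨X, f⟩ hX).2
      closed := by
        intro Z X U f i j hf hi hj hr hX hU
        obtain ⟨L⟩ := hT.localization f i j hf hi hj hr n
        exact L.closed hX hU
      total := by
        intro Z X U f i j hf hi hj hr hZ hU
        obtain ⟨L⟩ := hT.localization f i j hf hi hj hr n
        exact L.total hZ hU }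
  have hQ : IsDevissage True F (fun X f => ∀ n, T.BP n ⟨X, f⟩) :=
    { iso := fun e g hg hX n => (hP n).iso e g hg (hX n)
      empty := fun f hX n => (hP n).empty f hX
      closed := fun f i j hf hi hj hr hX hU n => (hP n).closed f i j hf hi hj hr (hX n) (hU n)
      total := fun f i j hf hi hj hr hZ hU n => (hP n).total f i j hf hi hj hr (hZ n) (hU n) }
  have hA1 : A1 (fun X f => ∀ n, T.BP n ⟨X, f⟩) := by
    intro A _ _ hA
    obtain ⟨S⟩ := hT.homotopy A hA
    constructor
    · intro h n i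
      exact (S.perfect (i - 2) (n - 1) i n (by ring) (by ring)).mp (h (n - 1) (i - 2))
    · intro h n i
      exact (S.perfect i n (i + 2) (n + 1) rfl rfl).mpr (h (n + 1) (i + 2))
  refine ⟨fun n => ⟨fun h N h' _ => h _ (str F _) (ft_gate h'), fun h X f hf => ?_⟩,
    ⟨fun h N r g _ => h _ (str F (Cubic g)) (ft_hyp g), fun h X f hf => ?_⟩, fun N r g => ?_⟩
  · exact all_of_gates hC h1 (hP n) (fun N h' hh' => h N h' hh') f hf
  · exact all_of_cubics hC h1 hQ hA1 (fun N r g hg => h N r g hg) f hf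
  · have := smooth_mv F N
    exact hyp_smooth_scheme F _ g

end Pool.Agent.Results.MP_a9d3bd_ag.CubicHypersurfaces
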